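import Pool.Agent.R251.Cmp.Cov

set_option autoImplicit false

/-!
# MP_b1773a: how small can a Kakeya set in `ℝ^n` be? A compression by the factor `(log (1/δ))^(n-1)`

The product of an optimal planar Besicovitch set with a cube is a Kakeya set in `ℝ^n` whose
`δ`-neighbourhood has measure about `1 / log (1/δ)`.  We construct, for every `n`, one Kakeya set
whose `δ`-neighbourhoods have measure at most `C (log (1/δ))^(-(n-1))`, for all `0 < δ < 1`.  So in the
lower bounds `|N_δ K| ≥ c_ε δ^ε` asked for by the Kakeya conjecture `δ^ε` cannot be replaced by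
anything larger than `(log (1/δ))^(-(n-1))`, and in the Hausdorff form the conjecture fails for every
gauge function `g` that is much smaller than `r^n (log (1/r))^(n-1)` along a sequence of radii.

Construction: the position of the segment with slope `v ∈ [-1,1]^(n-1)` is `a(v) = -∑_m τ_m ε_m 2^{-m-1}`
where `ε_m ∈ {-1,1}^(n-1)` are the binary digits of `v` and `τ_m = 2 sin (2π log m)` are focusing
times which oscillate on a logarithmic scale, so that every time is approached slowly infinitely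
often.
-/

open MeasureTheory Set Metric

namespace Pool.Agent.Results.MP_b1773a_an.LogarithmicCompression

/-- Euclidean space `ℝ^n`. -/
abbrev E (n : ℕ) : Type := EuclideanSpace ℝ (Fin n)

/-- `K` is a Kakeya set: it is compact and contains a unit segment in every direction. -/
def IsKakeya {n : ℕ} (K : Set (E n)) : Prop :=
  IsCompact K ∧ ∀ e : E n, ‖e‖ = 1 → ∃ a : E n, ∀ t ∈ Icc (0:ℝ) 1, a + t • e ∈ K

/-- For every `ε > 0` there is `0 < δ ≤ ε` such that `K` is covered by finitely many balls of the same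
radius `δ`, with `∑ g(δ) ≤ ε`.  In particular the Hausdorff measure of `K` with gauge `g` is zero. -/
def GaugeNull {n : ℕ} (g : ℝ → ℝ) (K : Set (E n)) : Prop :=
  ∀ ε : ℝ, 0 < ε → ∃ δ : ℝ, 0 < δ ∧ δ ≤ ε ∧ ∃ F : Finset (E n),
    K ⊆ ⋃ x ∈ F, closedBall x δ ∧ (F.card : ℝ) * g δ ≤ ε

/-- **Kakeya sets in `ℝ^n` compressed by the factor `(log (1/δ))^(n-1)`.**  For every `n ≥ 1` there are
a Kakeya set `K ⊆ ℝ^n` and a constant `C` such that
1. the `δ`-neighbourhood of `K` has measure at most `C / (log (1/δ))^(n-1)` for all `0 < δ < 1`;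
2. `K` is null for every gauge `g` with `liminf g(r) / (r^n (log (1/r))^(n-1)) = 0` as `r → 0`. -/
theorem result (n : ℕ) (hn : 1 ≤ n) : ∃ (K : Set (E n)) (C : ℝ), IsKakeya K ∧
    (∀ δ : ℝ, 0 < δ → δ < 1 →
      volume (thickening δ K) ≤ ENNReal.ofReal (C / Real.log (1 / δ) ^ (n - 1))) ∧
    ∀ g : ℝ → ℝ, (∀ ε : ℝ, 0 < ε → ∃ r : ℝ, 0 < r ∧ r ≤ ε ∧
        0 ≤ g r ∧ g r ≤ ε * (r ^ n * Real.log (1 / r) ^ (n - 1))) → GaugeNull g K := by
  obtain ⟨d, rfl⟩ : ∃ d, n = d + 1 := ⟨n - 1, by omega⟩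
  simp only [Nat.add_sub_cancel]
  set C : ℝ := (d + 1) * 4 * 1000 ^ d with hC
  have hC0 : 0 < C := by positivity
  refine ⟨Pool.Agent.R251.Cmp.K (d + 1), C,
    ⟨Pool.Agent.R251.Cmp.K_compact _, fun e he => Pool.Agent.R251.Cmp.K_segments (by omega) e he⟩,
    fun δ hδ hδ1 => Pool.Agent.R251.Cmp.K_vol d hδ hδ1, ?_⟩
  intro g hg ε hε
  set w := (volume (ball (0 : E (d + 1)) 1)).toReal with hw
  have hw0 : 0 < w := ENNReal.toReal_pos (measure_ball_pos volume _ one_pos).ne' measure_ball_lt_top.ne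
  set η : ℝ := min (min ε (1 / 2)) (ε * w / (C * 2 ^ (d + 1))) with hη
  have hη0 : 0 < η := by
    apply lt_min (lt_min hε (by norm_num))
    positivity
  have hη1 : η ≤ ε := (min_le_left _ _).trans (min_le_left _ _)
  have hη2 : η ≤ 1 / 2 := (min_le_left _ _).trans (min_le_right _ _)
  have hη3 : η ≤ ε * w / (C * 2 ^ (d + 1)) := min_le_right _ _
  obtain ⟨r, hr0, hrη, hg0, hgr⟩ := hg η hη0
  have hr1 : r < 1 := by linarith
  have hL0 : 0 < Real.log (1 / r) := Real.log_pos (by rw [lt_div_iff₀ hr0]; linarith)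
  obtain ⟨F, hF, hcard⟩ := Pool.Agent.R251.Cmp.exists_cover (K := Pool.Agent.R251.Cmp.K (d + 1)) hr0
    (show 0 ≤ C / Real.log (1 / r) ^ d by positivity) (Pool.Agent.R251.Cmp.K_vol d hr0 hr1)
  refine ⟨r, hr0, hrη.trans hη1, F, hF, ?_⟩
  set L := Real.log (1 / r) ^ d with hL
  have hL1 : 0 < L := by positivity
  have h1 : (F.card : ℝ) * r ^ (d + 1) ≤ C * 2 ^ (d + 1) / (L * w) := by
    rw [le_div_iff₀ (by positivity)]
    have h2 : (F.card : ℝ) * ((r / 2) ^ (d + 1) * w) * (L * 2 ^ (d + 1)) ≤ C / L * (L * 2 ^ (d + 1)) :=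
      mul_le_mul_of_nonneg_right hcard (by positivity)
    have h3 : C / L * (L * 2 ^ (d + 1)) = C * 2 ^ (d + 1) := by field_simp
    have h4 : (F.card : ℝ) * ((r / 2) ^ (d + 1) * w) * (L * 2 ^ (d + 1)) =
        (F.card : ℝ) * r ^ (d + 1) * (L * w) := by
      rw [div_pow]; field_simp
    rw [h3, h4] at h2
    exact h2
  calc (F.card : ℝ) * g r ≤ (F.card : ℝ) * (η * (r ^ (d + 1) * L)) := by gcongr
    _ = η * L * ((F.card : ℝ) * r ^ (d + 1)) := by ring
    _ ≤ η * L * (C * 2 ^ (d + 1) / (L * w)) := by gcongr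
    _ = η * (C * 2 ^ (d + 1) / w) := by field_simp
    _ ≤ ε * w / (C * 2 ^ (d + 1)) * (C * 2 ^ (d + 1) / w) := by gcongr
    _ = ε := by field_simp

end Pool.Agent.Results.MP_b1773a_an.LogarithmicCompression
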