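import Pool.Agent.R251.Lam.Main

set_option autoImplicit false

/-!
# MP_b1773a: Kakeya sets are not covered by countably many smooth laminations

A *lamination of class `C^k` with transversal `C`* (a set of real numbers) is a set of the form
`{x ∈ U | F x ∈ C}`, where `U ⊆ ℝ^n` is open and `F : U → ℝ` is of class `C^k` with nowhere vanishing
derivative: a union of hypersurfaces `F = c`, one for each `c ∈ C`.  Its dimension is
`n - 1 + dim C`, so that it has zero volume and dimension less than `n` as soon as `dim C < 1`.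

We prove: if `K` is covered by countably many laminations of class `C^(k j)` with transversals `C j`
(arbitrary sets) such that `dim_H (C j) + n / k j < 1`, then for almost every direction `e` every line
parallel to `e` meets `K` in a set of length zero.  In particular a Kakeya set is never covered by
countably many `C^∞` laminations with transversals of dimension less than one, and never by countably
many hypersurfaces of class `C^(n+1)`.  No assumption is made on the position of the lines with respect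
to the leaves.

Proof: on a line which meets `{F ∈ C}` in positive length there is a point at which `F` is constant
along the line up to order `k`.  Near this point the line is close to a piece of a semialgebraic set
(a sublevel set of a Taylor polynomial) of bounded complexity and small volume, and a semialgebraic
set contains segments in few directions (`Pool.Agent.W770.SA.one_set`).
-/

open MeasureTheory Set Metric
open scoped ENNReal

namespace Pool.Agent.Results.MP_b1773a_an.SmoothLaminations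

/-- Euclidean space `ℝ^n`. -/
abbrev E (n : ℕ) : Type := EuclideanSpace ℝ (Fin n)

/-- The surface measure on the unit sphere. -/
noncomputable def surf (n : ℕ) : Measure (sphere (0 : E n) 1) := (volume : Measure (E n)).toSphere

/-- For every direction `e ∈ S` there is a line parallel to `e` which meets `K` in a set of positive
length. -/
def MeetsLines {n : ℕ} (S : Set (sphere (0 : E n) 1)) (K : Set (E n)) : Prop :=
  ∀ e ∈ S, ∃ p : E n, volume {t : ℝ | p + t • (e : E n) ∈ K} ≠ 0

/-- `P` is a lamination of class `C^k` with transversal `C ⊆ ℝ`: `P = {x ∈ U | F x ∈ C}`, where `U` is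
open and `F` is of class `C^k` on `U` with nowhere vanishing derivative (`k = ⊤` means `C^∞`). -/
def Lamination {n : ℕ} (k : ℕ∞) (C : Set ℝ) (P : Set (E n)) : Prop :=
  ∃ (U : Set (E n)) (F : E n → ℝ), IsOpen U ∧ ContDiffOn ℝ k F U ∧ (∀ x ∈ U, fderiv ℝ F x ≠ 0) ∧
    P = {x | x ∈ U ∧ F x ∈ C}

theorem exists_order {d : ℕ} {κ : ℕ∞} {C : Set ℝ}
    (h : dimH C + ((d + 1 : ℕ) : ℝ≥0∞) * (κ : ℝ≥0∞)⁻¹ < 1) :
    ∃ k : ℕ, ((k + 1 : ℕ) : ℕ∞) ≤ κ ∧ d < k ∧ μH[((k:ℝ) - d) / (k + 1)] C = 0 := by
  have key : ∀ k : ℕ, d < k → dimH C < ENNReal.ofReal (((k:ℝ) - d) / (k + 1)) →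
      μH[((k:ℝ) - d) / (k + 1)] C = 0 := by
    intro k hk hlt
    have h0 : 0 ≤ ((k:ℝ) - d) / (k + 1) := by
      have : (d:ℝ) < k := by exact_mod_cast hk
      apply div_nonneg <;> linarith
    have h1 := hausdorffMeasure_of_dimH_lt (d := (((k:ℝ) - d) / (k + 1)).toNNReal) (s := C) hlt
    rwa [Real.coe_toNNReal _ h0] at h1
  induction κ using ENat.recTopCoe with
  | top =>
    have h1 : dimH C < 1 := by simpa using h
    obtain ⟨s, hs1, hs2⟩ := ENNReal.lt_iff_exists_nnreal_btwn.1 h1
    have hs : (s:ℝ) < 1 := by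
      have : (s : ℝ≥0∞) < ((1 : NNReal) : ℝ≥0∞) := by simpa using hs2
      exact_mod_cast this
    have hs' : 0 < 1 - (s:ℝ) := by linarith
    obtain ⟨k, hk⟩ := exists_nat_gt (((d:ℝ) + 1) / (1 - s))
    have hk0 : ((d:ℝ) + 1) < k * (1 - s) := by rwa [div_lt_iff₀ hs'] at hk
    have hk1 : (0:ℝ) ≤ k := Nat.cast_nonneg k
    have hs0 : (0:ℝ) ≤ s := s.2
    have hdk : d < k := by
      have : (d:ℝ) < k := by nlinarith
      exact_mod_cast this
    refine ⟨k, le_top, hdk, key k hdk (hs1.trans ?_)⟩
    rw [← ENNReal.ofReal_coe_nnreal]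
    apply (ENNReal.ofReal_lt_ofReal_iff_of_nonneg hs0).2
    rw [lt_div_iff₀ (by positivity)]
    nlinarith
  | coe K =>
    have hK0 : K ≠ 0 := by
      rintro rfl
      have : ((d + 1 : ℕ) : ℝ≥0∞) * (((0 : ℕ) : ℕ∞) : ℝ≥0∞)⁻¹ = ∞ := by
        rw [show ((((0 : ℕ) : ℕ∞) : ℝ≥0∞)) = 0 by simp, ENNReal.inv_zero, ENNReal.mul_top]
        exact_mod_cast Nat.succ_ne_zero d
      rw [this] at h
      simp at h
    obtain ⟨k, rfl⟩ := Nat.exists_eq_succ_of_ne_zero hK0
    have hk1 : (0:ℝ) < (k:ℝ) + 1 := by positivity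
    have e1 : ((d + 1 : ℕ) : ℝ≥0∞) * (((k.succ : ℕ) : ℕ∞) : ℝ≥0∞)⁻¹ =
        ENNReal.ofReal (((d:ℝ) + 1) / (k + 1)) := by
      rw [div_eq_mul_inv, ENNReal.ofReal_mul (by positivity), ENNReal.ofReal_inv_of_pos hk1]
      congr 1
      · rw [← Nat.cast_succ, ENNReal.ofReal_natCast]
      · congr 1
        rw [← Nat.cast_succ, ENNReal.ofReal_natCast]
        simp
    rw [e1] at h
    have h2 : ENNReal.ofReal (((d:ℝ) + 1) / (k + 1)) < 1 := lt_of_le_of_lt le_add_self h
    have h3 : ((d:ℝ) + 1) / (k + 1) < 1 := by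
      rw [← ENNReal.ofReal_one] at h2
      exact (ENNReal.ofReal_lt_ofReal_iff one_pos).1 h2
    have hdk : d < k := by
      rw [div_lt_one hk1] at h3
      have : (d:ℝ) < k := by linarith
      exact_mod_cast this
    refine ⟨k, le_rfl, hdk, key k hdk ?_⟩
    have h4 : dimH C < 1 - ENNReal.ofReal (((d:ℝ) + 1) / (k + 1)) :=
      lt_tsub_iff_right.2 h
    refine lt_of_lt_of_le h4 (le_of_eq ?_)
    rw [← ENNReal.ofReal_one, ← ENNReal.ofReal_sub _ (by positivity)]
    congr 1
    field_simp
    ring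

/-- **Kakeya sets are not covered by countably many smooth laminations.**  Let `K ⊆ ℝ^n`, `n ≥ 1`, be
covered by laminations `P j` of class `C^(k j)` with transversals `C j`, `j = 0, 1, 2, …`, such that
`dim_H (C j) + n / k j < 1` (with `n / ∞ = 0`).  If for every `e ∈ S` some line parallel to `e` meets
`K` in a set of positive length, then `S` has surface measure zero; in particular `K` is not a Kakeya
set. -/
theorem result (n : ℕ) (hn : 1 ≤ n) (k : ℕ → ℕ∞) (C : ℕ → Set ℝ) (P : ℕ → Set (E n))
    (hC : ∀ j, dimH (C j) + (n : ℝ≥0∞) * (k j : ℝ≥0∞)⁻¹ < 1)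
    (hP : ∀ j, Lamination (k j) (C j) (P j)) (K : Set (E n)) (hK : K ⊆ ⋃ j, P j) :
    (∀ S : Set (sphere (0 : E n) 1), MeetsLines S K → surf n S = 0) ∧
    ¬ ∀ e : sphere (0 : E n) 1, ∃ a : E n, ∀ t ∈ Icc (0:ℝ) 1, a + t • (e : E n) ∈ K := by
  obtain ⟨d, rfl⟩ : ∃ d, n = d + 1 := ⟨n - 1, by omega⟩
  have main : ∀ S : Set (sphere (0 : E (d + 1)) 1), MeetsLines S K → surf (d + 1) S = 0 := by
    intro S hS
    have hnull : ∀ j, surf (d + 1) {e : sphere (0 : E (d + 1)) 1 | ∃ p : E (d + 1),
        volume {t : ℝ | p + t • (e : E (d + 1)) ∈ P j} ≠ 0} = 0 := by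
      intro j
      obtain ⟨k', hk', hdk, hC0⟩ := exists_order (hC j)
      obtain ⟨U, F, hU, hF, hgrad, hPj⟩ := hP j
      have h1 := Pool.Agent.R251.Lam.null_dirs hU
        (hF.of_le (by exact_mod_cast hk') : ContDiffOn ℝ ((k' + 1 : ℕ) : ℕ∞) F U) hgrad hdk hC0
      rw [hPj]
      exact h1
    refine measure_mono_null ?_ (measure_iUnion_null hnull)
    intro e he
    obtain ⟨p, hp⟩ := hS e he
    by_contra hcon
    apply hp
    have hsub : {t : ℝ | p + t • (e : E (d + 1)) ∈ K} ⊆
        ⋃ j, {t : ℝ | p + t • (e : E (d + 1)) ∈ P j} := by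
      intro t ht
      obtain ⟨j, hj⟩ := mem_iUnion.1 (hK ht)
      exact mem_iUnion.2 ⟨j, hj⟩
    refine measure_mono_null hsub (measure_iUnion_null fun j => ?_)
    by_contra hne
    exact hcon (mem_iUnion.2 ⟨j, p, hne⟩)
  refine ⟨main, fun hseg => ?_⟩
  have h1 := main univ (fun e _ => by
    obtain ⟨a, ha⟩ := hseg e
    refine ⟨a, fun h0 => ?_⟩
    have h2 : volume (Icc (0:ℝ) 1) ≤ 0 := by
      rw [← h0]
      exact measure_mono fun t ht => ha t ht
    rw [Real.volume_Icc] at h2
    simp at h2)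
  have h2 : 0 < (volume (ball (0 : E (d + 1)) 1)) := measure_ball_pos _ _ one_pos
  unfold surf at h1
  rw [Measure.toSphere_apply_univ, finrank_euclideanSpace_fin, mul_eq_zero] at h1
  rcases h1 with h1 | h1
  · norm_cast at h1
  · exact h2.ne' h1

end Pool.Agent.Results.MP_b1773a_an.SmoothLaminations
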