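import Pool.Agent.R251.Str.Cor

set_option autoImplicit false

/-!
# MP_b1773a: Kakeya sets with additively structured slices

Write points of `ℝ^(d+1)` as `(t, y)`, with height `t` and `y ∈ ℝ^d`, let `K_t ⊆ ℝ^d` be the slice of
`K` at height `t`, and let `N_δ` denote `δ`-neighbourhoods.  The known examples of sets of Kakeya type
of small dimension over fields with a subfield of half dimension (the Heisenberg example) have slices
which are closed under addition.  We prove that a compact Kakeya set `K ⊆ ℝ^(d+1)` whose slices are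
approximately closed under addition at all scales, `|N_δ(K_t + K_t)| ≤ C_γ δ^(-γ) |N_δ(K_t)|` for every
`γ > 0`, has full lower Minkowski dimension.  More generally it is enough that at every small scale
`δ` and for all heights outside a set of small measure the slice `K_t` is covered by `δ^(-γ)` sets `D` with
`|N_δ(D + D)| ≤ δ^(-γ) |N_δ(D)|` and of total size comparable with that of `K_t`, up to `δ^(-γ)`, on
average over `t`.  The sets `D` at different heights need not be related to each other.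

Proof: by averaging there are `k + 1` heights, in a fixed affine ratio, with good slices; the lines of
`K` give, after rounding, a set `A` of pairs of integer vectors of size `δ^(-d)` whose projections
with `k + 1` slopes are covered by few sets of small doubling of size at most `M`, and then
`|A|^k ≤ (loss) M^(k+1)` (`Pool.Agent.TH539.StrProj.main1`).
-/

open MeasureTheory Set Metric
open scoped ENNReal Pointwise

namespace Pool.Agent.Results.MP_b1773a_an.StructuredSlices

/-- The space `ℝ^(d+1)`. -/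
abbrev Space (d : ℕ) : Type := EuclideanSpace ℝ (Fin (d + 1))

/-- `K` contains a unit segment in every direction. -/
def HasSegments {d : ℕ} (K : Set (Space d)) : Prop :=
  ∀ e : Space d, ‖e‖ = 1 → ∃ a : Space d, ∀ t ∈ Icc (0:ℝ) 1, a + t • e ∈ K

/-- The slice of `K ⊆ ℝ^(d+1)` at height `t`: the set of all `y ∈ ℝ^d` with `(t, y) ∈ K`. -/
def slice {d : ℕ} (K : Set (Space d)) (t : ℝ) : Set (Fin d → ℝ) :=
  {y | WithLp.toLp 2 (Fin.cons t y : Fin (d + 1) → ℝ) ∈ K}

/-- `A ⊆ ℝ^d` is covered by at most `Q` sets `D` with `|N_δ(D + D)| ≤ Q |N_δ(D)|` and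
`|N_δ(D)| ≤ m` (neighbourhoods for the maximum norm of `ℝ^d`). -/
def Structured {d : ℕ} (δ Q : ℝ) (m : ℝ≥0∞) (A : Set (Fin d → ℝ)) : Prop :=
  ∃ (N : ℕ) (D : Fin N → Set (Fin d → ℝ)), (N : ℝ) ≤ Q ∧ A ⊆ ⋃ j, D j ∧ ∀ j,
    volume (thickening δ (D j + D j)) ≤ ENNReal.ofReal Q * volume (thickening δ (D j)) ∧
    volume (thickening δ (D j)) ≤ m

/-- At all small scales `δ` there is a set `G` of heights whose complement has measure at most `γ`,
such that the slices of `K` at the heights `t ∈ G` are covered by at most `δ^(-γ)` sets `D` with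
`|N_δ(D + D)| ≤ δ^(-γ) |N_δ(D)|` and `|N_δ(D)| ≤ m t`, where `∫ m` is at most `δ^(-γ)` times the volume of
the `δ`-neighbourhood of `K`. -/
def AddTame {d : ℕ} (γ : ℝ) (K : Set (Space d)) : Prop :=
  ∃ δ₀ : ℝ, 0 < δ₀ ∧ ∀ δ : ℝ, 0 < δ → δ < δ₀ → ∃ (G : Set ℝ) (m : ℝ → ℝ≥0∞),
    volume Gᶜ ≤ ENNReal.ofReal γ ∧ Measurable m ∧
    (∀ t ∈ G, Structured δ (δ ^ (-γ)) (m t) (slice K t)) ∧
    ∫⁻ t, m t ≤ ENNReal.ofReal (δ ^ (-γ)) * volume (thickening δ K)

/-- All slices of `K` are approximately closed under addition at all scales: for every `γ > 0` there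
is `C` with `|N_δ(K_t + K_t)| ≤ C δ^(-γ) |N_δ(K_t)|` for all `0 < δ < 1` and all `t`. -/
def AddClosed {d : ℕ} (K : Set (Space d)) : Prop :=
  ∀ γ : ℝ, 0 < γ → ∃ C : ℝ, ∀ δ : ℝ, 0 < δ → δ < 1 → ∀ t : ℝ,
    volume (thickening δ (slice K t + slice K t)) ≤
      ENNReal.ofReal (C * δ ^ (-γ)) * volume (thickening δ (slice K t))

/-- `|N_δ K| ≥ c' δ ^ ε` for all `0 < δ < 1`, with some `c' > 0`. -/
def LowerBound {d : ℕ} (ε : ℝ) (K : Set (Space d)) : Prop :=
  ∃ c' : ℝ, 0 < c' ∧ ∀ δ : ℝ, 0 < δ → δ < 1 →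
    ENNReal.ofReal (c' * δ ^ ε) ≤ volume (thickening δ K)

/-- **Kakeya sets with additively structured slices.**  For every `d`:
1. (one scale) for every `k` there are `κ, γ₀ > 0` and `C` such that, for every `K ⊆ ℝ^(d+1)` with a unit
  segment in every direction, every `δ > 0` and `Q ≥ 1`: if the slices of `K` at the heights
  `t ∈ G`, where `|Gᶜ| ≤ γ₀`, are covered by at most `Q` sets `D` with `|N_δ(D + D)| ≤ Q |N_δ(D)|` and
  `|N_δ(D)| ≤ m t`, then `∫ m ≥ κ δ ^ (d / (k + 1)) Q ^ (-C)`;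
2. for every `ε > 0` there is `γ > 0` such that `|N_δ K| ≥ c' δ ^ ε` for all `0 < δ < 1`, with some
  `c' > 0`, if `K` has a unit segment in every direction and is tame with exponent `γ`;
3. every compact `K` with a unit segment in every direction, all of whose slices are approximately
  closed under addition at all scales, satisfies `|N_δ K| ≥ c' δ ^ ε` for every `ε > 0`: its lower
  Minkowski dimension is `d + 1`. -/
theorem result (d : ℕ) :
    (∀ k : ℕ, ∃ (κ γ₀ : ℝ) (C : ℕ), 0 < κ ∧ 0 < γ₀ ∧ ∀ K : Set (Space d), HasSegments K →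
      ∀ (δ : ℝ), 0 < δ → ∀ (G : Set ℝ) (m : ℝ → ℝ≥0∞) (Q : ℝ), 1 ≤ Q → Measurable m →
      volume Gᶜ ≤ ENNReal.ofReal γ₀ → (∀ t ∈ G, Structured δ Q (m t) (slice K t)) →
      ENNReal.ofReal (κ * δ ^ ((d : ℝ) / (k + 1)) / Q ^ C) ≤ ∫⁻ t, m t) ∧
    (∀ ε : ℝ, 0 < ε → ∃ γ : ℝ, 0 < γ ∧ ∀ K : Set (Space d), HasSegments K → AddTame γ K →
      LowerBound ε K) ∧
    (∀ K : Set (Space d), IsCompact K → HasSegments K → AddClosed K →
      ∀ ε : ℝ, 0 < ε → LowerBound ε K) := by
  have conv : ∀ (δ Q : ℝ) (m : ℝ≥0∞) (A : Set (Fin d → ℝ)), Structured δ Q m A →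
      Pool.Agent.R251.Str.StrS (δ / 2) Q m A := by
    intro δ Q m A h
    unfold Pool.Agent.R251.Str.StrS
    rw [show 2 * (δ / 2) = δ by ring]
    exact h
  refine ⟨?_, ?_, ?_⟩
  · intro k
    obtain ⟨κ, γ₀, C, hκ, hγ₀, h⟩ := Pool.Agent.R251.Str.one_scale d k
    refine ⟨κ * (1 / 2) ^ ((d : ℝ) / (k + 1)), γ₀, C, by positivity, hγ₀, ?_⟩
    intro K hK δ hδ G m Q hQ hm hG hstr
    have h1 := h K hK (δ / 2) (by positivity) G m Q hQ hm hG fun t ht => conv _ _ _ _ (hstr t ht)
    refine le_trans (le_of_eq ?_) h1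
    congr 2
    rw [show δ / 2 = (1 / 2) * δ by ring, Real.mul_rpow (by norm_num) hδ.le, mul_assoc]
  · intro ε hε
    obtain ⟨γ, hγ, h⟩ := Pool.Agent.R251.Str.minkowski d ε hε
    refine ⟨γ, hγ, fun K hK hT => h K hK ?_⟩
    obtain ⟨δ₀, hδ₀, h1⟩ := hT
    refine ⟨δ₀, hδ₀, fun δ hδ hδ1 => ?_⟩
    obtain ⟨G, m, hG, hm, hs, hi⟩ := h1 δ hδ hδ1
    exact ⟨G, m, hG, hm, fun t ht => conv _ _ _ _ (hs t ht), hi⟩
  · intro K hKc hK hD ε hε
    exact Pool.Agent.R251.Str.doubling hKc hK hD ε hε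

end Pool.Agent.Results.MP_b1773a_an.StructuredSlices
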