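import Pool.Agent.R251.Typ.Mink

set_option autoImplicit false

/-! The minimal Hausdorff dimension and the minimal lower Minkowski dimension of Kakeya sets are
attained simultaneously by all Kakeya sets outside a meagre family, while the upper Minkowski
dimension of a typical Kakeya set is `n`.  Hence the Kakeya conjecture (in either form) holds for
all Kakeya sets as soon as it holds for a typical one. -/

open MeasureTheory Set Metric Filter Topology TopologicalSpace
open scoped ENNReal NNReal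

namespace Pool.Agent.Results.MP_b1773a_an.TypicalSets

/-- Euclidean space. -/
abbrev E (n : ℕ) : Type := EuclideanSpace ℝ (Fin n)

/-- `K` contains a unit segment in every direction. -/
def IsKakeya {n : ℕ} (K : Set (E n)) : Prop :=
  ∀ e : E n, ‖e‖ = 1 → ∃ a : E n, ∀ t ∈ Icc (0:ℝ) 1, a + t • e ∈ K

/-- The space of all (compact, nonempty) Kakeya sets in `ℝⁿ`, with the Hausdorff distance
(Mathlib's metric of `NonemptyCompacts`). -/
abbrev KakeyaSpace (n : ℕ) : Type :=
  {K : NonemptyCompacts (E n) // IsKakeya (K : Set (E n))}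

/-- The exponent of the volume of the `δ`-neighbourhood:
`n - log |N_δ K| / log δ`. -/
noncomputable def scaleDim {n : ℕ} (K : Set (E n)) (δ : ℝ) : ℝ :=
  (n:ℝ) - Real.log (volume (thickening δ K)).toReal / Real.log δ

/-- Lower Minkowski dimension. -/
noncomputable def lowerMinkowski {n : ℕ} (K : Set (E n)) : EReal :=
  liminf (fun δ : ℝ => ((scaleDim K δ : ℝ) : EReal)) (𝓝[>] 0)

/-- Upper Minkowski dimension. -/
noncomputable def upperMinkowski {n : ℕ} (K : Set (E n)) : EReal :=
  limsup (fun δ : ℝ => ((scaleDim K δ : ℝ) : EReal)) (𝓝[>] 0)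

theorem result (n : ℕ) :
    CompleteSpace (KakeyaSpace n) ∧ Nonempty (KakeyaSpace n) ∧
    (∀ᶠ K in residual (KakeyaSpace n),
      (∀ K' : KakeyaSpace n, dimH (K.1 : Set (E n)) ≤ dimH (K'.1 : Set (E n))) ∧
      (∀ K' : KakeyaSpace n,
        lowerMinkowski (K.1 : Set (E n)) ≤ lowerMinkowski (K'.1 : Set (E n))) ∧
      upperMinkowski (K.1 : Set (E n)) = (n : EReal)) ∧
    (∃ K : KakeyaSpace n, ∀ K' : KakeyaSpace n,
      dimH (K.1 : Set (E n)) ≤ dimH (K'.1 : Set (E n)) ∧
      lowerMinkowski (K.1 : Set (E n)) ≤ lowerMinkowski (K'.1 : Set (E n))) ∧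
    ((∀ K : KakeyaSpace n, dimH (K.1 : Set (E n)) = n) ↔
      ∀ᶠ K in residual (KakeyaSpace n), dimH (K.1 : Set (E n)) = n) ∧
    ((∀ K : KakeyaSpace n, lowerMinkowski (K.1 : Set (E n)) = (n : EReal)) ↔
      ∀ᶠ K in residual (KakeyaSpace n), lowerMinkowski (K.1 : Set (E n)) = (n : EReal)) := by
  have hcomp : CompleteSpace (KakeyaSpace n) :=
    inferInstanceAs (CompleteSpace (R251.Typ.KS n))
  have hne : Nonempty (KakeyaSpace n) := inferInstanceAs (Nonempty (R251.Typ.KS n))
  have hB : BaireSpace (KakeyaSpace n) := inferInstance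
  have hdim : ∀ᶠ K in residual (KakeyaSpace n),
      ∀ K' : KakeyaSpace n, dimH (K.1 : Set (E n)) ≤ dimH (K'.1 : Set (E n)) :=
    R251.Typ.typical_dimH
  have hlow : ∀ᶠ K in residual (KakeyaSpace n), ∀ K' : KakeyaSpace n,
      lowerMinkowski (K.1 : Set (E n)) ≤ lowerMinkowski (K'.1 : Set (E n)) :=
    R251.Typ.typical_lowerM
  have hup : ∀ᶠ K in residual (KakeyaSpace n), upperMinkowski (K.1 : Set (E n)) = (n : EReal) :=
    R251.Typ.typical_upperM
  have hex : ∀ P : KakeyaSpace n → Prop, (∀ᶠ K in residual (KakeyaSpace n), P K) → ∃ K, P K := by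
    intro P hP
    exact (dense_of_mem_residual hP).nonempty
  have hupper : ∀ K : KakeyaSpace n, lowerMinkowski (K.1 : Set (E n)) ≤ (n : EReal) := fun K =>
    (R251.Typ.lowerM_le_upperM _).trans (R251.Typ.upperM_le K)
  have hdimn : ∀ K : KakeyaSpace n, dimH (K.1 : Set (E n)) ≤ n := by
    intro K
    refine (dimH_mono (subset_univ _)).trans ?_
    rw [Real.dimH_univ_eq_finrank, finrank_euclideanSpace_fin]
  refine ⟨hcomp, hne, ?_, ?_, ⟨?_, ?_⟩, ⟨?_, ?_⟩⟩
  · filter_upwards [hdim, hlow, hup] with K h1 h2 h3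
    exact ⟨h1, h2, h3⟩
  · obtain ⟨K, h1, h2⟩ := hex _ (hdim.and hlow)
    exact ⟨K, fun K' => ⟨h1 K', h2 K'⟩⟩
  · exact fun h => Eventually.of_forall h
  · intro h K'
    obtain ⟨K, h1, h2⟩ := hex _ (h.and hdim)
    refine le_antisymm (hdimn K') ?_
    rw [← h1]
    exact h2 K'
  · exact fun h => Eventually.of_forall h
  · intro h K'
    obtain ⟨K, h1, h2⟩ := hex _ (h.and hlow)
    refine le_antisymm (hupper K') ?_
    rw [← h1]
    exact h2 K'

end Pool.Agent.Results.MP_b1773a_an.TypicalSets
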